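import Mathlib
import Pool.Agent.H17.SpecialDir

set_option autoImplicit false

namespace Pool.Agent.Results.MP_ec4324_co.Gap

open Pool.Agent.H17.SpecialDir

/-- `S` is equidistributed in the direction `W` (a one-dimensional subspace of the plane):
all cosets `x + W` meet `S` in the same number of points. -/
def Equidistributed {p : ℕ} (S : Set (ZMod p × ZMod p))
    (W : Submodule (ZMod p) (ZMod p × ZMod p)) : Prop :=
  ∀ x y : ZMod p × ZMod p, {s ∈ S | s - x ∈ W}.ncard = {s ∈ S | s - y ∈ W}.ncard

section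
variable {p : ℕ} [Fact p.Prime]

/-- direction vector -/
def vec (d : Option (ZMod p)) : ZMod p × ZMod p := d.elim (0, 1) (fun m => (1, m))

def dir (d : Option (ZMod p)) : Submodule (ZMod p) (ZMod p × ZMod p) :=
  Submodule.span (ZMod p) {vec d}

lemma mem_dir (d : Option (ZMod p)) (v : ZMod p × ZMod p) : v ∈ dir d ↔ ell d v = 0 := by
  unfold dir
  rw [Submodule.mem_span_singleton]
  cases d with
  | none =>
    simp only [vec, ell, Option.elim]
    constructor
    · rintro ⟨a, rfl⟩; simp
    · intro h; exact ⟨v.2, by ext <;> simp [h]⟩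
  | some m =>
    simp only [vec, ell, Option.elim]
    constructor
    · rintro ⟨a, rfl⟩; simp [mul_comm]
    · intro h
      refine ⟨v.1, ?_⟩
      ext
      · simp
      · simp only [Prod.smul_mk, smul_eq_mul]
        linear_combination -h

lemma vec_ne (d : Option (ZMod p)) : vec d ≠ 0 := by
  cases d <;> simp [vec]

lemma dir_inj : Function.Injective (dir (p := p)) := by
  intro d e h
  by_contra hde
  obtain ⟨v, h1, h2⟩ := ell_exists d e hde 1
  rw [← mem_dir, ← h, mem_dir, h2] at h1
  exact one_ne_zero h1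

lemma dir_rank (d : Option (ZMod p)) : Module.finrank (ZMod p) (dir d) = 1 :=
  finrank_span_singleton (vec_ne d)

lemma dir_surj (W : Submodule (ZMod p) (ZMod p × ZMod p)) (hW : Module.finrank (ZMod p) W = 1) :
    ∃ d, dir d = W := by
  have hne : W ≠ ⊥ := by
    rintro rfl
    simp at hW
  obtain ⟨v, hv, hv0⟩ := Submodule.exists_mem_ne_zero_of_ne_bot hne
  have key : ∃ d, vec d ∈ W := by
    by_cases h1 : v.1 = 0
    · have h2 : v.2 ≠ 0 := fun h2 => hv0 (Prod.ext h1 h2)
      refine ⟨none, ?_⟩
      have := W.smul_mem v.2⁻¹ hv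
      convert this using 1
      ext <;> simp [vec, h1, h2]
    · refine ⟨some (v.2 / v.1), ?_⟩
      have := W.smul_mem v.1⁻¹ hv
      convert this using 1
      ext
      · simp [vec, h1]
      · simp [vec, div_eq_inv_mul]
  obtain ⟨d, hd⟩ := key
  refine ⟨d, Submodule.eq_of_le_of_finrank_eq ?_ (by rw [dir_rank, hW])⟩
  unfold dir
  rw [Submodule.span_le]
  simpa using hd

lemma ell_sub (d : Option (ZMod p)) (P v : ZMod p × ZMod p) :
    ell d (P - v) = ell d P - ell d v := by
  have := ell_add d (P - v) v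
  rw [sub_add_cancel] at this
  linear_combination -this

lemma ncard_eq (S : Finset (ZMod p × ZMod p)) (d : Option (ZMod p)) (x : ZMod p × ZMod p) :
    {s ∈ (S : Set (ZMod p × ZMod p)) | s - x ∈ dir d}.ncard = num S d (ell d x) := by
  unfold num
  rw [← Set.ncard_coe_finset]
  congr 1
  ext s
  simp [mem_dir, ell_sub, sub_eq_zero]

lemma equi_iff (S : Finset (ZMod p × ZMod p)) (d : Option (ZMod p)) :
    Equidistributed (S : Set (ZMod p × ZMod p)) (dir d) ↔ ∀ b, num S d b * p = S.card := by
  unfold Equidistributed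
  simp only [ncard_eq]
  have hp : 0 < p := (Fact.out : p.Prime).pos
  constructor
  · intro h b
    have h1 : ∀ c, num S d c = num S d b := by
      intro c
      obtain ⟨x, rfl⟩ := ell_surj d c
      obtain ⟨y, rfl⟩ := ell_surj d b
      exact h x y
    have h2 := sum_num S d
    simp only [h1, Finset.sum_const, Finset.card_univ, ZMod.card, nsmul_eq_mul] at h2
    rw [mul_comm]
    exact_mod_cast h2
  · intro h x y
    exact Nat.eq_of_mul_eq_mul_right hp ((h _).trans (h _).symm)

end

theorem result : ∀ k : ℕ, 4 ≤ k → ∃ p₀ : ℕ, ∀ p : ℕ, p.Prime → p₀ < p →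
    ∀ d : ℕ, d + k = p + 1 → ∀ S : Set (ZMod p × ZMod p),
      {W : Submodule (ZMod p) (ZMod p × ZMod p) |
        Module.finrank (ZMod p) W = 1 ∧ Equidistributed S W}.ncard ≠ d := by
  intro k hk
  obtain ⟨p₀, h⟩ := main k hk
  refine ⟨max p₀ k, fun p hp hp0 d₀ hd₀ S hS => ?_⟩
  have : Fact p.Prime := ⟨hp⟩
  have hp1 : p₀ < p := lt_of_le_of_lt (le_max_left _ _) hp0
  have hp2 : k < p := lt_of_le_of_lt (le_max_right _ _) hp0
  classical
  obtain ⟨S, rfl⟩ := (Set.toFinite S).exists_finset_coe
  set E := Finset.univ.filter (fun d : Option (ZMod p) => ¬ ∃ b, num S d b * p ≠ S.card) with hE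
  have h1 : {W : Submodule (ZMod p) (ZMod p × ZMod p) |
        Module.finrank (ZMod p) W = 1 ∧ Equidistributed (S : Set (ZMod p × ZMod p)) W} =
      dir '' (E : Set (Option (ZMod p))) := by
    ext W
    simp only [Set.mem_ofPred_eq, Set.mem_image, hE, Finset.coe_filter, Finset.mem_univ, true_and,
      not_exists, not_not]
    constructor
    · rintro ⟨h1, h2⟩
      obtain ⟨d, rfl⟩ := dir_surj W h1
      exact ⟨d, (equi_iff S d).mp h2, rfl⟩
    · rintro ⟨d, h1, rfl⟩
      exact ⟨dir_rank d, (equi_iff S d).mpr h1⟩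
  rw [h1, Set.ncard_image_of_injective _ dir_inj, Set.ncard_coe_finset] at hS
  have h2 := Finset.card_filter_add_card_filter_not (s := (Finset.univ : Finset (Option (ZMod p))))
    (fun d : Option (ZMod p) => ∃ b, num S d b * p ≠ S.card)
  rw [← hE, Finset.card_univ, Fintype.card_option, ZMod.card] at h2
  have h3 : p ∣ S.card := by
    obtain ⟨d, hd⟩ : E.Nonempty := Finset.card_pos.mp (by omega)
    simp only [hE, Finset.mem_filter, Finset.mem_univ, true_and, not_exists, not_not] at hd
    exact ⟨num S d 0, by rw [← hd 0, mul_comm]⟩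
  exact h p hp1 S h3 (by omega)

end Pool.Agent.Results.MP_ec4324_co.Gap
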